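import Pool.Agent.Helper48.KV.GoalsJ

/-!
# PROJECT KV (MP_66be51_an), packet JMAIN: continuous induction and the limit `r → 0`
-/

set_option autoImplicit false

open MeasureTheory Set Filter Topology

noncomputable section

namespace Pool.Agent.Helper60.KV

open Pool.Agent.Helper33.KV Pool.Agent.Helper41.KV Pool.Agent.Helper48.KV

/-- continuous induction -/
theorem cont_ind {J : ℝ → ℝ} {τ T : ℝ} (hc : ContinuousOn J (Icc τ T)) (h0 : J τ ≤ 1 / 4)
    (hstep : ∀ t ∈ Icc τ T, (∀ s ∈ Icc τ t, J s ≤ 1) → J t ≤ 1 / 2) :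
    ∀ t ∈ Icc τ T, J t ≤ 1 := by
  intro t ht
  by_contra hcon
  push Not at hcon
  set B := Icc τ t ∩ J ⁻¹' Ici 1 with hB
  have hct : ContinuousOn J (Icc τ t) := hc.mono (Icc_subset_Icc_right ht.2)
  have hBc : IsCompact B :=
    isCompact_Icc.of_isClosed_subset (hct.preimage_isClosed_of_isClosed isClosed_Icc isClosed_Ici)
      inter_subset_left
  have hBn : B.Nonempty := ⟨t, ⟨ht.1, le_rfl⟩, hcon.le⟩
  obtain ⟨m, hm, hmin⟩ := hBc.exists_isLeast hBn
  have hm1 : 1 ≤ J m := hm.2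
  have hcm : ContinuousOn J (Icc τ m) := hct.mono (Icc_subset_Icc_right hm.1.2)
  obtain ⟨m', hm', hJ⟩ := intermediate_value_Icc hm.1.1 hcm
    (show (1 : ℝ) ∈ Icc (J τ) (J m) from ⟨by linarith, hm1⟩)
  have h1 : m ≤ m' := hmin ⟨⟨hm'.1, hm'.2.trans hm.1.2⟩, by
    change 1 ≤ J m'
    rw [hJ]⟩
  have h2 : m' = m := le_antisymm hm'.2 h1
  rw [h2] at hJ
  have h3 : ∀ s ∈ Icc τ m, J s ≤ 1 := by
    intro s hs
    by_contra hcs
    push Not at hcs
    have h4 : m ≤ s := hmin ⟨⟨hs.1, hs.2.trans hm.1.2⟩, hcs.le⟩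
    have h5 : s = m := le_antisymm hs.2 h4
    rw [h5, hJ] at hcs
    exact lt_irrefl _ hcs
  have h4 := hstep m ⟨hm.1.1, hm.1.2.trans ht.2⟩ h3
  rw [hJ] at h4
  norm_num at h4

/-- Fatou for real functions -/
theorem fatou_int {f : ℕ → ℝ → ℝ} {F : ℝ → ℝ} {B : ℝ} (hint : ∀ m, Integrable (f m))
    (hnn : ∀ m x, 0 ≤ f m x) (hb : ∀ m, (∫ x, f m x) ≤ B)
    (hlim : ∀ x, Tendsto (fun m => f m x) atTop (𝓝 (F x))) :
    Integrable F ∧ (∫ x, F x) ≤ B := by
  have hF0 : ∀ x, 0 ≤ F x := fun x => ge_of_tendsto' (hlim x) (fun m => hnn m x)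
  have hFm : AEStronglyMeasurable F volume :=
    aestronglyMeasurable_of_tendsto_ae atTop (fun m => (hint m).aestronglyMeasurable)
      (Eventually.of_forall hlim)
  have hB0 : 0 ≤ B := (integral_nonneg (hnn 0)).trans (hb 0)
  have h1 : (∫⁻ x, ENNReal.ofReal (F x)) ≤ ENNReal.ofReal B := by
    have h2 : ∀ x, ENNReal.ofReal (F x) = liminf (fun m => ENNReal.ofReal (f m x)) atTop := by
      intro x
      exact ((ENNReal.continuous_ofReal.tendsto _).comp (hlim x)).liminf_eq.symm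
    calc (∫⁻ x, ENNReal.ofReal (F x))
        = ∫⁻ x, liminf (fun m => ENNReal.ofReal (f m x)) atTop := by simp_rw [h2]
      _ ≤ liminf (fun m => ∫⁻ x, ENNReal.ofReal (f m x)) atTop :=
          lintegral_liminf_le' (fun m => (hint m).aestronglyMeasurable.aemeasurable.ennreal_ofReal)
      _ ≤ ENNReal.ofReal B := by
          have h3 : ∀ m, (∫⁻ x, ENNReal.ofReal (f m x)) ≤ ENNReal.ofReal B := by
            intro m
            rw [← ofReal_integral_eq_lintegral_ofReal (hint m) (Eventually.of_forall (hnn m))]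
            exact ENNReal.ofReal_le_ofReal (hb m)
          refine (liminf_le_liminf (Eventually.of_forall h3)).trans ?_
          rw [liminf_const]
  have hFi : Integrable F := by
    refine ⟨hFm, ?_⟩
    rw [hasFiniteIntegral_iff_ofReal (Eventually.of_forall hF0)]
    exact h1.trans_lt ENNReal.ofReal_lt_top
  refine ⟨hFi, ?_⟩
  rw [integral_eq_lintegral_of_nonneg_ae (Eventually.of_forall hF0) hFm]
  calc (∫⁻ x, ENNReal.ofReal (F x)).toReal ≤ (ENNReal.ofReal B).toReal :=
        ENNReal.toReal_mono ENNReal.ofReal_ne_top h1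
    _ = B := ENNReal.toReal_ofReal hB0

/-- the weight `h` is bounded for `r > 0` -/
theorem hJ_le {κ r t z : ℝ} (hκ : 0 < κ) (hr : 0 < r) (ht : 0 < t) (hz : 0 < z) :
    hJ κ r t z ≤ (1 / r) ^ κ := by
  unfold hJ
  apply Real.rpow_le_rpow (by positivity) _ hκ.le
  rw [div_le_div_iff₀ (by positivity) hr]
  nlinarith [mul_pos hr hz]

theorem hJ_lim {κ t z : ℝ} (ht : 0 < t) (hz : 0 < z) {r : ℕ → ℝ}
    (hr : Tendsto r atTop (𝓝 0)) :
    Tendsto (fun m => hJ κ (r m) t z) atTop (𝓝 ((z / (3 * t)) ^ κ)) := by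
  unfold hJ
  have h1 : Tendsto (fun m => 3 * t + r m * z) atTop (𝓝 (3 * t)) := by
    simpa using (hr.mul_const z).const_add (3 * t)
  have h2 : Tendsto (fun m => z / (3 * t + r m * z)) atTop (𝓝 (z / (3 * t))) :=
    tendsto_const_nhds.div h1 (by positivity)
  exact h2.rpow_const (Or.inl (by positivity))

theorem QJ_lim {κ t z : ℝ} (ht : 0 < t) (hz : 0 < z) {r : ℕ → ℝ}
    (hr : Tendsto r atTop (𝓝 0)) :
    Tendsto (fun m => QJ κ (r m) t z) atTop (𝓝 (κ * (z / (3 * t)) ^ (κ - 1))) := by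
  unfold QJ
  have h1 : Tendsto (fun m => 3 * t + r m * z) atTop (𝓝 (3 * t)) := by
    simpa using (hr.mul_const z).const_add (3 * t)
  have h2 := ((hJ_lim (κ := κ) ht hz hr).const_mul (9 * κ * t ^ 2)).div (h1.const_mul z)
    (by positivity)
  have e : κ * (z / (3 * t)) ^ (κ - 1)
      = 9 * κ * t ^ 2 * (z / (3 * t)) ^ κ / (z * (3 * t)) := by
    rw [Real.rpow_sub_one (by positivity)]
    field_simp
    ring
  rw [e]
  exact h2

theorem jmain (hJSTEP : S_JSTEP) (hJW : S_JW) (hCUT : S_CUT) (hSCL : S_SCL) (hPKQ : S_PKQ) :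
    S_JMAIN := by
  intro α K CV A z q hα0 hα1 hK hCV hq hkq hz
  obtain ⟨C1, T1, k1, hC1, hT10, hT11, hstep⟩ := hJSTEP α K CV A z q hα0 hα1 hK hCV hq hkq hz
  obtain ⟨C2, T2, hC2, hT20, hT21, hT2α, hcut, hcutB⟩ := hCUT α K hα0 hα1 hK
  set κ := kq q with hκ
  have hq2 : (2 : ℝ) ≤ q := by exact_mod_cast hq
  have hκ0 : 0 < κ := by rw [hκ]; unfold kq; positivity
  have hκ1 : κ ≤ 1 / 10 := by
    rw [hκ]; unfold kq
    rw [div_le_div_iff₀ (by positivity) (by norm_num)]
    linarith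
  have hA : 101 ≤ A := by
    have h1 := hz.ge 1
    rw [hz.lin 1 le_rfl] at h1
    linarith
  have hz0 : ∀ x, 0 < z x := fun x => by have := hz.ge x; linarith
  set CA := ((A + 1) / 3) ^ κ with hCA
  have hCA0 : 0 < CA := by positivity
  set C3 := CA * CV * (7 : ℝ) ^ ((3 : ℝ) / 2) with hC3
  have hC30 : 0 < C3 := by positivity
  set T3 := (1 / (4 * C3)) ^ (1 / (5 * κ)) with hT3
  have hT30 : 0 < T3 := by positivity
  refine ⟨C1, min (min T1 T2) T3, k1, hC1, lt_min (lt_min hT10 hT20) hT30,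
    (min_le_left _ _).trans ((min_le_left _ _).trans hT11), ?_⟩
  intro k0 n τ T u V hk0 hτ0 hτT hT hu hV hDn hDn2 hinit hinit2
  have hTT1 : T ≤ T1 := hT.trans ((min_le_left _ _).trans (min_le_left _ _))
  have hTT2 : T ≤ T2 := hT.trans ((min_le_left _ _).trans (min_le_right _ _))
  have hTT3 : T ≤ T3 := hT.trans (min_le_right _ _)
  have hT1 : T ≤ 1 := hTT1.trans hT11
  have hα3 : ∀ t, t ≤ T → (4 * α + 3) * t ≤ 1 := by
    intro t ht
    have h1 : (4 * α + 3) * t ≤ (4 * α + 3) * T2 := by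
      apply mul_le_mul_of_nonneg_left _ (by linarith)
      linarith
    linarith
  -- the packets
  obtain ⟨Cp, hCp, hpk⟩ := hPKQ
  obtain ⟨-, -, -, -, hgHI, -⟩ := hpk q k0 n hq
  set w : ℝ → ℝ → ℝ := fun t x => u t x - gq q k0 n t x with hw
  have hwL : ∀ t ∈ Icc τ T, ContDiff ℝ (⊤ : ℕ∞) (w t) ∧ Integrable (fun x => w t x ^ 2) ∧
      Integrable (fun x => deriv (w t) x ^ 2) := by
    intro t ht
    have hus := hu.hinf.smooth t ht
    have hgs := (hgHI t).1.1
    have hws : ContDiff ℝ (⊤ : ℕ∞) (w t) := hus.sub hgs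
    have h0 : MemLp (w t) 2 := by
      have h1 := hu.hinf.memLp 0 t ht
      have h2 := (hgHI t).1.2 0
      rw [iteratedDeriv_zero] at h1 h2
      exact h1.sub h2
    have h1 : MemLp (deriv (w t)) 2 := by
      have h1 := hu.hinf.memLp 1 t ht
      have h2 := (hgHI t).1.2 1
      rw [iteratedDeriv_one] at h1 h2
      have e : deriv (w t) = fun x => deriv (u t) x - deriv (gq q k0 n t) x := by
        funext x
        exact deriv_fun_sub ((hus.differentiable (by simp)) x) ((hgs.differentiable (by simp)) x)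
      rw [e]
      exact h1.sub h2
    exact ⟨hws, h0.integrable_sq, h1.integrable_sq⟩
  -- facts on the cut-off
  have hcJ : ∀ t ∈ Icc τ T, ∀ x, 0 ≤ cJ α K t x ∧ cJ α K t x ≤ 1 := by
    intro t ht x
    obtain ⟨-, h1, -⟩ := hcut t (hτ0.trans_le ht.1) (ht.2.trans hTT2)
    have h2 := h1 x
    unfold cJ
    exact ⟨pow_nonneg h2.1 10, pow_le_one₀ h2.1 h2.2⟩
  have hcJc : ∀ t ∈ Icc τ T, Continuous (cJ α K t) := by
    intro t ht
    have h1 := (hcutB t t (hτ0.trans_le ht.1) le_rfl (ht.2.trans hTT2)).2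
    exact (h1.smooth t ⟨le_rfl, le_rfl⟩).continuous
  have hzc : Continuous z := hz.smooth.continuous
  -- continuity of the weights
  have hJc : ∀ t r, 0 < t → 0 < r → Continuous (fun x => hJ κ r t (z x)) := by
    intro t r ht hr
    unfold hJ
    have h1 : ∀ x, 3 * t + r * z x ≠ 0 := fun x => by have := hz0 x; positivity
    have h2 : Continuous (fun x => z x / (3 * t + r * z x)) := by
      apply hzc.div _ h1
      fun_prop
    apply h2.rpow_const
    intro x
    right
    exact hκ0.le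
  have hQJc : ∀ t r, 0 < t → 0 < r → Continuous (fun x => QJ κ r t (z x)) := by
    intro t r ht hr
    unfold QJ
    have h1 : ∀ x, z x * (3 * t + r * z x) ≠ 0 := fun x => by have := hz0 x; positivity
    apply Continuous.div _ _ h1
    · exact continuous_const.mul (hJc t r ht hr)
    · fun_prop
  have hPJc : ∀ t r, 0 < t → 0 < r → Continuous (fun x => PJ κ r t (z x)) := by
    intro t r ht hr
    unfold PJ
    have h1 : ∀ x, 3 * t + r * z x ≠ 0 := fun x => by have := hz0 x; positivity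
    apply (hJc t r ht hr).mul
    apply continuous_const.sub
    apply Continuous.div continuous_const _ h1
    fun_prop
  -- integrability
  have hintP : ∀ t ∈ Icc τ T, ∀ r, 0 < r →
      Integrable (fun x => pJ α K κ r z t x * w t x ^ 2) ∧
      Integrable (fun x => qJ α K κ r z t x * deriv (w t) x ^ 2) ∧
      Integrable (fun x => cJ α K t x * hJ κ r t (z x) * w t x ^ 2) := by
    intro t ht r hr
    have ht0 : 0 < t := hτ0.trans_le ht.1
    obtain ⟨-, hi0, hi1⟩ := hwL t ht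
    have hb : ∀ x, |pJ α K κ r z t x| ≤ (1 / r) ^ κ ∧ |qJ α K κ r z t x| ≤ (1 / r) ^ κ * (3 * κ * t)
        ∧ |cJ α K t x * hJ κ r t (z x)| ≤ (1 / r) ^ κ := by
      intro x
      obtain ⟨-, -, -, -, -, hh0, hP1, hP2, hQ0, hQ1, -⟩ :=
        hJW κ r t (z x) hκ0 (by linarith) hr ht0 (hz0 x)
      have hc := hcJ t ht x
      have hhr := hJ_le hκ0 hr ht0 (hz0 x)
      have hP0 : 0 ≤ PJ κ r t (z x) := by
        have : 0 ≤ (1 - κ) * hJ κ r t (z x) := mul_nonneg (by linarith) hh0.le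
        linarith
      have hzx : 1 ≤ z x := by have := hz.ge x; linarith
      have hQ2 : QJ κ r t (z x) ≤ (1 / r) ^ κ * (3 * κ * t) := by
        have h1 : 3 * κ * t / z x ≤ 3 * κ * t := div_le_self (by positivity) hzx
        calc QJ κ r t (z x) ≤ 3 * κ * t / z x * hJ κ r t (z x) := hQ1
          _ ≤ 3 * κ * t * (1 / r) ^ κ := by gcongr
          _ = _ := by ring
      refine ⟨?_, ?_, ?_⟩
      · unfold pJ
        rw [abs_of_nonneg (mul_nonneg hP0 hc.1)]
        calc PJ κ r t (z x) * cJ α K t x ≤ PJ κ r t (z x) * 1 := by gcongr; exact hc.2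
          _ ≤ (1 / r) ^ κ := by linarith
      · unfold qJ
        rw [abs_of_nonneg (mul_nonneg hQ0.le hc.1)]
        calc QJ κ r t (z x) * cJ α K t x ≤ QJ κ r t (z x) * 1 := by gcongr; exact hc.2
          _ ≤ _ := by linarith
      · rw [abs_of_nonneg (mul_nonneg hc.1 hh0.le)]
        calc cJ α K t x * hJ κ r t (z x) ≤ 1 * hJ κ r t (z x) := by gcongr; exact hc.2
          _ ≤ _ := by linarith
    refine ⟨?_, ?_, ?_⟩
    · apply hi0.bdd_mul (c := (1 / r) ^ κ)
      · exact ((hPJc t r ht0 hr).mul (hcJc t ht)).aestronglyMeasurable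
      · exact Eventually.of_forall fun x => (hb x).1
    · apply hi1.bdd_mul (c := (1 / r) ^ κ * (3 * κ * t))
      · exact ((hQJc t r ht0 hr).mul (hcJc t ht)).aestronglyMeasurable
      · exact Eventually.of_forall fun x => (hb x).2.1
    · apply hi0.bdd_mul (c := (1 / r) ^ κ)
      · exact ((hcJc t ht).mul (hJc t r ht0 hr)).aestronglyMeasurable
      · exact Eventually.of_forall fun x => (hb x).2.2
  -- (a) the initial value
  have hτm : τ ∈ Icc τ T := ⟨le_rfl, hτT.le⟩
  have hJ0 : ∀ r, 0 < r → Jqf α K κ r z τ (w τ) ≤ 1 / 4 := by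
    intro r hr
    obtain ⟨-, hd01, hleft, hright, hd1, hd0, -⟩ := hcut τ hτ0 (hτT.le.trans hTT2)
    obtain ⟨hs0, hs1, hl0, hl1, hρ0, hρ1, -, -, -, htl, -, hρ7⟩ :=
      hSCL α τ hα0 hα1 hτ0 (hα3 τ hτT.le)
    have hρ7' := hρ7 κ hκ0 hkq
    obtain ⟨hws, hi0, hi1⟩ := hwL τ hτm
    set G : ℝ → ℝ := fun x => CA * τ ^ (-κ) * (w τ x ^ 2 + lam α τ ^ 2 * deriv (w τ) x ^ 2)
      with hG
    have hGi : Integrable (fun x => w τ x ^ 2 + lam α τ ^ 2 * deriv (w τ) x ^ 2) :=
      hi0.add (hi1.const_mul _)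
    have hzero : ∀ x, 3 / 4 ≤ pW α K τ x → cJ α K τ x = 0 := by
      intro x hx
      unfold cJ
      rw [hd0 x hx]
      norm_num
    have hpt : ∀ x, 0 ≤ pJ α K κ r z τ x * w τ x ^ 2 + qJ α K κ r z τ x * deriv (w τ) x ^ 2 ∧
        pJ α K κ r z τ x * w τ x ^ 2 + qJ α K κ r z τ x * deriv (w τ) x ^ 2 ≤ G x := by
      intro x
      obtain ⟨-, -, -, -, -, hh0, hP1, hP2, hQ0, hQ1, -, -, -, -, -, -, -, -, hhz, -⟩ :=
        hJW κ r τ (z x) hκ0 (by linarith) hr hτ0 (hz0 x)
      have hc := hcJ τ hτm x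
      have hP0 : 0 ≤ PJ κ r τ (z x) := by
        have : 0 ≤ (1 - κ) * hJ κ r τ (z x) := mul_nonneg (by linarith) hh0.le
        linarith
      have hG0 : 0 ≤ G x := by rw [hG]; positivity
      constructor
      · unfold pJ qJ
        have := hc.1
        positivity
      · by_cases h34 : 3 / 4 ≤ pW α K τ x
        · unfold pJ qJ
          rw [hzero x h34]
          simpa using hG0
        · push Not at h34
          have hx1 : x < 1 / 2 := by
            by_contra hx
            push Not at hx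
            have := hright x hx
            linarith
          by_cases hxm : x < -1
          · have hw0 : w τ x = 0 := by
              simp only [hw]
              rw [hinit x hxm, sub_self]
            have hw1 : deriv (w τ) x = 0 := by
              have h1 : w τ =ᶠ[𝓝 x] fun _ => 0 := by
                filter_upwards [Iio_mem_nhds hxm] with y hy
                simp only [hw]
                rw [hinit y hy, sub_self]
              rw [h1.deriv_eq]
              simp
            rw [hw0, hw1]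
            simpa using hG0
          · push Not at hxm
            have hzx : z x ≤ A + 1 := by
              rw [hz.lin x (by linarith)]
              linarith
            have hzx2 := hz.ge x
            have hhA : hJ κ r τ (z x) ≤ CA * τ ^ (-κ) := by
              refine hhz.trans ?_
              have e : CA * τ ^ (-κ) = ((A + 1) / (3 * τ)) ^ κ := by
                rw [hCA, Real.rpow_neg hτ0.le, ← Real.inv_rpow hτ0.le,
                  ← Real.mul_rpow (by positivity) (by positivity)]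
                congr 1
                field_simp
              rw [e]
              apply Real.rpow_le_rpow (by have := hz0 x; positivity) _ hκ0.le
              gcongr
            have hQ2 : QJ κ r τ (z x) ≤ lam α τ ^ 2 * hJ κ r τ (z x) := by
              refine hQ1.trans ?_
              apply mul_le_mul_of_nonneg_right _ hh0.le
              rw [div_le_iff₀ (hz0 x)]
              nlinarith
            unfold pJ qJ
            have h1 : PJ κ r τ (z x) * cJ α K τ x ≤ CA * τ ^ (-κ) := by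
              calc PJ κ r τ (z x) * cJ α K τ x ≤ PJ κ r τ (z x) * 1 := by gcongr; exact hc.2
                _ ≤ _ := by linarith
            have h2 : QJ κ r τ (z x) * cJ α K τ x ≤ CA * τ ^ (-κ) * lam α τ ^ 2 := by
              calc QJ κ r τ (z x) * cJ α K τ x ≤ QJ κ r τ (z x) * 1 := by gcongr; exact hc.2
                _ ≤ lam α τ ^ 2 * hJ κ r τ (z x) := by linarith
                _ ≤ lam α τ ^ 2 * (CA * τ ^ (-κ)) := by gcongr
                _ = _ := by ring
            have h3 : PJ κ r τ (z x) * cJ α K τ x * w τ x ^ 2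
                ≤ CA * τ ^ (-κ) * w τ x ^ 2 := by gcongr
            have h4 : QJ κ r τ (z x) * cJ α K τ x * deriv (w τ) x ^ 2
                ≤ CA * τ ^ (-κ) * lam α τ ^ 2 * deriv (w τ) x ^ 2 := by gcongr
            rw [hG]
            simp only []
            nlinarith
    have hstep1 : Jqf α K κ r z τ (w τ)
        = ∫ x in {x | pW α K τ x ≤ 3 / 4},
          (pJ α K κ r z τ x * w τ x ^ 2 + qJ α K κ r z τ x * deriv (w τ) x ^ 2) := by
      unfold Jqf
      symm
      apply setIntegral_eq_integral_of_forall_compl_eq_zero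
      intro x hx
      simp only [Set.mem_ofPred_eq, not_le] at hx
      unfold pJ qJ
      rw [hzero x hx.le]
      ring
    have hstep2 : (∫ x in {x | pW α K τ x ≤ 3 / 4},
          (pJ α K κ r z τ x * w τ x ^ 2 + qJ α K κ r z τ x * deriv (w τ) x ^ 2))
        ≤ ∫ x in {x | pW α K τ x ≤ 3 / 4}, G x := by
      apply integral_mono_of_nonneg
      · exact Eventually.of_forall fun x => (hpt x).1
      · exact (hGi.const_mul _).integrableOn
      · exact Eventually.of_forall fun x => (hpt x).2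
    have hstep3 : (∫ x in {x | pW α K τ x ≤ 3 / 4}, G x) ≤ CA * τ ^ (-κ) *
        (CV * rho α τ ^ ((3 : ℝ) / 2)) := by
      rw [hG, integral_const_mul]
      exact mul_le_mul_of_nonneg_left hinit2 (by positivity)
    have hρ3 : rho α τ ^ ((3 : ℝ) / 2) ≤ 7 ^ ((3 : ℝ) / 2) * τ ^ (6 * κ) := by
      calc rho α τ ^ ((3 : ℝ) / 2) ≤ (7 * τ ^ (4 * κ)) ^ ((3 : ℝ) / 2) :=
            Real.rpow_le_rpow hρ0.le hρ7' (by norm_num)
        _ = 7 ^ ((3 : ℝ) / 2) * τ ^ (6 * κ) := by
            rw [Real.mul_rpow (by norm_num) (by positivity), ← Real.rpow_mul hτ0.le]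
            congr 2
            ring
    have hstep4 : CA * τ ^ (-κ) * (CV * rho α τ ^ ((3 : ℝ) / 2)) ≤ C3 * τ ^ (5 * κ) := by
      have e : τ ^ (5 * κ) = τ ^ (-κ) * τ ^ (6 * κ) := by
        rw [← Real.rpow_add hτ0]
        congr 1
        ring
      calc CA * τ ^ (-κ) * (CV * rho α τ ^ ((3 : ℝ) / 2))
          ≤ CA * τ ^ (-κ) * (CV * (7 ^ ((3 : ℝ) / 2) * τ ^ (6 * κ))) := by gcongr
        _ = C3 * τ ^ (5 * κ) := by rw [e, hC3]; ring
    have hstep5 : C3 * τ ^ (5 * κ) ≤ 1 / 4 := by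
      have h1 : τ ^ (5 * κ) ≤ T3 ^ (5 * κ) :=
        Real.rpow_le_rpow hτ0.le (hτT.le.trans hTT3) (by positivity)
      have h2 : T3 ^ (5 * κ) = 1 / (4 * C3) := by
        rw [hT3, ← Real.rpow_mul (by positivity)]
        have : 1 / (5 * κ) * (5 * κ) = 1 := by field_simp
        rw [this, Real.rpow_one]
      calc C3 * τ ^ (5 * κ) ≤ C3 * T3 ^ (5 * κ) := by gcongr
        _ = 1 / 4 := by rw [h2]; field_simp
    linarith
  -- (b) continuous induction
  set r0 := τ / (A + 2 * Xq q (k0 + n) + 100) with hr0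
  have hXq : 0 < Xq q (k0 + n) := by unfold Xq; positivity
  have hden : 0 < A + 2 * Xq q (k0 + n) + 100 := by linarith
  have hr00 : 0 < r0 := by positivity
  have hall : ∀ r, 0 < r → r ≤ r0 → ∀ t ∈ Icc τ T, Jqf α K κ r z t (w t) ≤ 1 / 2 ∧
      Nd α K t (w t) ≤ C1 * t ^ κ := by
    intro r hr hrr
    have hadm : r * (A + 2 * Xq q (k0 + n) + 100) ≤ τ := by
      calc r * (A + 2 * Xq q (k0 + n) + 100) ≤ r0 * (A + 2 * Xq q (k0 + n) + 100) := by gcongr
        _ = τ := by rw [hr0]; field_simp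
    obtain ⟨hcont, hst⟩ := hstep k0 n τ T r u V hk0 hτ0 hτT hTT1 hr hadm hu hV hDn hDn2
      (hJ0 r hr)
    have h1 := cont_ind hcont (hJ0 r hr) (fun t ht h => (hst t ht h).1)
    intro t ht
    exact hst t ht (fun s hs => h1 s ⟨hs.1, hs.2.trans ht.2⟩)
  -- (c) the limit
  intro t ht
  have ht0 : 0 < t := hτ0.trans_le ht.1
  refine ⟨(hall r0 hr00 le_rfl t ht).2, ?_⟩
  set rm : ℕ → ℝ := fun m => r0 / (m + 1) with hrm
  have hrm0 : ∀ m, 0 < rm m := fun m => by simp only [hrm]; positivity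
  have hrm1 : ∀ m, rm m ≤ r0 := fun m => by
    simp only [hrm]
    apply div_le_self hr00.le
    have : (0 : ℝ) ≤ m := Nat.cast_nonneg m
    linarith
  have hrml : Tendsto rm atTop (𝓝 0) := by
    have h1 := (tendsto_one_div_add_atTop_nhds_zero_nat (𝕜 := ℝ)).const_mul r0
    rw [mul_zero] at h1
    refine h1.congr fun m => ?_
    simp only [hrm]
    ring
  have hnnP : ∀ m x, 0 ≤ cJ α K t x * hJ κ (rm m) t (z x) * w t x ^ 2 ∧
      0 ≤ qJ α K κ (rm m) z t x * deriv (w t) x ^ 2 ∧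
      cJ α K t x * hJ κ (rm m) t (z x) * w t x ^ 2 ≤
        4 / 3 * (pJ α K κ (rm m) z t x * w t x ^ 2 + qJ α K κ (rm m) z t x * deriv (w t) x ^ 2) ∧
      qJ α K κ (rm m) z t x * deriv (w t) x ^ 2 ≤
        pJ α K κ (rm m) z t x * w t x ^ 2 + qJ α K κ (rm m) z t x * deriv (w t) x ^ 2 := by
    intro m x
    obtain ⟨-, -, -, -, -, hh0, hP1, hP2, hQ0, hQ1, -⟩ :=
      hJW κ (rm m) t (z x) hκ0 (by linarith) (hrm0 m) ht0 (hz0 x)
    have hc := hcJ t ht x
    have hP3 : 3 / 4 * hJ κ (rm m) t (z x) ≤ PJ κ (rm m) t (z x) := by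
      have : 3 / 4 * hJ κ (rm m) t (z x) ≤ (1 - κ) * hJ κ (rm m) t (z x) := by
        apply mul_le_mul_of_nonneg_right _ hh0.le
        linarith
      linarith
    have hP0 : 0 ≤ PJ κ (rm m) t (z x) := by
      have : 0 ≤ 3 / 4 * hJ κ (rm m) t (z x) := by positivity
      linarith
    have hc1 := hc.1
    have h1 : 0 ≤ cJ α K t x * hJ κ (rm m) t (z x) * w t x ^ 2 := by positivity
    have h2 : 0 ≤ qJ α K κ (rm m) z t x * deriv (w t) x ^ 2 := by unfold qJ; positivity
    have h3 : 0 ≤ pJ α K κ (rm m) z t x * w t x ^ 2 := by unfold pJ; positivity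
    refine ⟨h1, h2, ?_, by linarith⟩
    have h4 : 3 / 4 * (cJ α K t x * hJ κ (rm m) t (z x) * w t x ^ 2)
        ≤ pJ α K κ (rm m) z t x * w t x ^ 2 := by
      unfold pJ
      have h5 : 3 / 4 * hJ κ (rm m) t (z x) * (cJ α K t x * w t x ^ 2)
          ≤ PJ κ (rm m) t (z x) * (cJ α K t x * w t x ^ 2) := by
        apply mul_le_mul_of_nonneg_right hP3
        positivity
      nlinarith
    linarith
  have hF1 := fatou_int (f := fun m x => cJ α K t x * hJ κ (rm m) t (z x) * w t x ^ 2)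
    (F := fun x => cJ α K t x * (z x / (3 * t)) ^ κ * w t x ^ 2) (B := 1)
    (fun m => (hintP t ht (rm m) (hrm0 m)).2.2) (fun m x => (hnnP m x).1)
    (fun m => by
      have h1 := hall (rm m) (hrm0 m) (hrm1 m) t ht
      have h2 := hintP t ht (rm m) (hrm0 m)
      have h3 : (∫ x, cJ α K t x * hJ κ (rm m) t (z x) * w t x ^ 2)
          ≤ ∫ x, 4 / 3 * (pJ α K κ (rm m) z t x * w t x ^ 2
            + qJ α K κ (rm m) z t x * deriv (w t) x ^ 2) :=
        integral_mono h2.2.2 ((h2.1.add h2.2.1).const_mul _) (fun x => (hnnP m x).2.2.1)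
      rw [integral_const_mul] at h3
      have h4 : (∫ x, (pJ α K κ (rm m) z t x * w t x ^ 2
            + qJ α K κ (rm m) z t x * deriv (w t) x ^ 2)) ≤ 1 / 2 := h1.1
      linarith)
    (fun x => ((hJ_lim ht0 (hz0 x) hrml).const_mul (cJ α K t x)).mul_const _)
  have hF2 := fatou_int (f := fun m x => qJ α K κ (rm m) z t x * deriv (w t) x ^ 2)
    (F := fun x => κ * (z x / (3 * t)) ^ (κ - 1) * cJ α K t x * deriv (w t) x ^ 2) (B := 1)
    (fun m => (hintP t ht (rm m) (hrm0 m)).2.1) (fun m x => (hnnP m x).2.1)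
    (fun m => by
      have h1 := hall (rm m) (hrm0 m) (hrm1 m) t ht
      have h2 := hintP t ht (rm m) (hrm0 m)
      have h3 : (∫ x, qJ α K κ (rm m) z t x * deriv (w t) x ^ 2)
          ≤ ∫ x, (pJ α K κ (rm m) z t x * w t x ^ 2
            + qJ α K κ (rm m) z t x * deriv (w t) x ^ 2) :=
        integral_mono h2.2.1 (h2.1.add h2.2.1) (fun x => (hnnP m x).2.2.2)
      have h4 : (∫ x, (pJ α K κ (rm m) z t x * w t x ^ 2
            + qJ α K κ (rm m) z t x * deriv (w t) x ^ 2)) ≤ 1 / 2 := h1.1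
      linarith)
    (fun x => ((QJ_lim ht0 (hz0 x) hrml).mul_const (cJ α K t x)).mul_const _)
  refine ⟨hF1.1, hF1.2, ?_⟩
  have e : (fun x => cJ α K t x * (z x / (3 * t)) ^ (κ - 1) * deriv (w t) x ^ 2)
      = fun x => κ⁻¹ * (κ * (z x / (3 * t)) ^ (κ - 1) * cJ α K t x * deriv (w t) x ^ 2) := by
    funext x
    field_simp
  have h5 : Integrable (fun x => cJ α K t x * (z x / (3 * t)) ^ (κ - 1) * deriv (w t) x ^ 2) := by
    rw [e]
    exact hF2.1.const_mul _
  refine ⟨h5, ?_⟩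
  have h6 : (∫ x, cJ α K t x * (z x / (3 * t)) ^ (κ - 1) * deriv (w t) x ^ 2)
      = κ⁻¹ * ∫ x, κ * (z x / (3 * t)) ^ (κ - 1) * cJ α K t x * deriv (w t) x ^ 2 := by
    rw [← integral_const_mul]
    exact congrArg (fun f : ℝ → ℝ => ∫ x, f x) e
  have h7 : (∫ x, cJ α K t x * (z x / (3 * t)) ^ (κ - 1) * deriv (w t) x ^ 2) ≤ 1 / κ := by
    rw [h6, one_div]
    calc κ⁻¹ * ∫ x, κ * (z x / (3 * t)) ^ (κ - 1) * cJ α K t x * deriv (w t) x ^ 2
        ≤ κ⁻¹ * 1 := mul_le_mul_of_nonneg_left hF2.2 (by positivity)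
      _ = κ⁻¹ := mul_one _
  exact h7

end Pool.Agent.Helper60.KV
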